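import Pool.Agent.H12.CF4

set_option autoImplicit false
open Classical

namespace Pool.Agent.Results.MP_098c03_co.FourConnected

/-- points of the real plane -/
abbrev Pt : Type := EuclideanSpace ℝ (Fin 2)

/-- affine subspaces of the real plane -/
abbrev Sub : Type := AffineSubspace ℝ Pt

/-- incidence -/
def On (p : Pt) (l : Sub) : Prop := p ∈ l

/-- straight lines: the affine subspaces with 1-dimensional direction -/
def IsLine (l : Sub) : Prop := Module.finrank ℝ l.direction = 1

/-- a geometric 4-configuration -/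
def IsConfig (P : Finset Pt) (L : Finset Sub) : Prop :=
  P.Nonempty ∧ (∀ l ∈ L, IsLine l) ∧ (∀ p ∈ P, (L.filter (fun l => On p l)).card = 4) ∧
    (∀ l ∈ L, (P.filter (fun p => On p l)).card = 4)

/-- the Levi graph -/
def Levi (P : Finset Pt) (L : Finset Sub) : SimpleGraph ({p // p ∈ P} ⊕ {l // l ∈ L}) :=
  SimpleGraph.fromRel (fun a b => ∃ p l, a = Sum.inl p ∧ b = Sum.inr l ∧ On p.1 l.1)

/-- k-connected: more than k vertices, connected after deleting fewer than k vertices -/
def KConnected {V : Type} [Fintype V] (k : ℕ) (G : SimpleGraph V) : Prop :=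
  k < Fintype.card V ∧ ∀ S : Finset V, S.card < k → (G.induce ((↑S : Set V)ᶜ)).Connected

/-- Q2: a geometric 4-configuration whose Levi graph is 4-connected and has no Hamiltonian cycle. -/
theorem result :
    ∃ (P : Finset Pt) (L : Finset Sub),
      IsConfig P L ∧ KConnected 4 (Levi P L) ∧ ¬ (Levi P L).IsHamiltonian := by
  obtain ⟨P, L, h1, h2, h3, h4, G, rfl, h6, h7, h8⟩ := Pool.Agent.H12.CF.main
  refine ⟨P, L, ⟨h1, h2, fun p hp => ?_, fun l hl => ?_⟩, ⟨by convert h6, h7⟩, by convert h8; rfl⟩
  · convert h3 p hp; rfl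
  · convert h4 l hl; rfl

end Pool.Agent.Results.MP_098c03_co.FourConnected
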